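import Pool.Agent.Helper88.CG.Goals
import Pool.Agent.Helper93.PP.TR
import Pool.Agent.Helper42.PP.TRE

/-! # The weighted second moment with an arbitrary main term (packet WT of CG)

The algebra is adapted from `Pool/Agent/Helper96/GM/TR.lean`, the counting part from
`Pool/Agent/Helper42/PP/TRE.lean`. -/

set_option autoImplicit false

open Finset Filter Topology

open scoped Classical ArithmeticFunction.Moebius

namespace Pool.Agent.Helper67.CG

open Pool.Agent.Helper88.PP (pr Rg om Sf SS uu vv dd DL kap LL ww)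
open Pool.Agent.Helper88.RR (nz)
open Pool.Agent.Helper88.CG
open Pool.Agent.Helper93.PP (ind vv_eq LL_eq_zero ind_mul J_eq DL_spec LL_Sf LL_le sum_pi_pi)
open Pool.Agent.Helper42.PP (mem_SS DL_mem LL_mem Qn fiber_card kap_le)

/-- `1` at `0`, `C` elsewhere -/
noncomputable def cC (C : ℝ) (a : ℕ) : ℝ := if a = 0 then 1 else C

theorem cC_nonneg {C : ℝ} (hC : 1 ≤ C) (a : ℕ) : 0 ≤ cC C a := by
  unfold cC; split_ifs <;> linarith

theorem cC_le {C : ℝ} (hC : 1 ≤ C) (a : ℕ) : cC C a ≤ C := by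
  unfold cC; split_ifs <;> linarith

theorem single_le {z X : ℕ} {C : ℝ} (a : ℕ → ℝ) (ha : ∀ r, 0 ≤ a r) (ha0 : a 0 ≤ 1)
    (h : ∀ d ∈ SS z X, (d : ℝ) * ∑ r ∈ (SS z X).filter (fun r => d ∣ r), a r ≤ C)
    (d : ℕ) (hd : d ∈ insert 0 (SS z X)) :
    |kap d| * ∑ r ∈ (insert 0 (SS z X)).filter (fun r => d ∈ DL r), a r ≤ cC C d := by
  unfold cC
  by_cases h0 : d = 0
  · rw [if_pos h0]
    have : (insert 0 (SS z X)).filter (fun r => d ∈ DL r) ⊆ {0} := by
      intro r hr
      rw [mem_filter] at hr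
      rw [mem_singleton]
      exact (DL_mem hr.1 hr.2).2.mp h0
    have h1 : ∑ r ∈ (insert 0 (SS z X)).filter (fun r => d ∈ DL r), a r ≤ 1 :=
      (sum_le_sum_of_subset_of_nonneg this (fun i _ _ => ha i)).trans (by simpa using ha0)
    have h2 : |kap d| = 1 := by simp [kap, h0]
    rw [h2, one_mul]; exact h1
  · rw [if_neg h0]
    have hdS : d ∈ SS z X := (mem_insert.mp hd).resolve_left h0
    have : (insert 0 (SS z X)).filter (fun r => d ∈ DL r) ⊆
        (SS z X).filter (fun r => d ∣ r) := by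
      intro r hr
      rw [mem_filter] at hr ⊢
      have h3 := (DL_mem hr.1 hr.2).2
      have h4 : r ≠ 0 := fun h4 => h0 (h3.mpr h4)
      refine ⟨(mem_insert.mp hr.1).resolve_left h4, ?_⟩
      have h5 := hr.2
      unfold DL at h5
      rw [if_neg h4] at h5
      exact Nat.dvd_of_mem_divisors h5
    have h1 : ∑ r ∈ (insert 0 (SS z X)).filter (fun r => d ∈ DL r), a r ≤
        ∑ r ∈ (SS z X).filter (fun r => d ∣ r), a r :=
      sum_le_sum_of_subset_of_nonneg this (fun i _ _ => ha i)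
    have h2 : |kap d| ≤ d := by
      have := kap_le d
      rwa [if_neg h0] at this
    exact (mul_le_mul h2 h1 (sum_nonneg fun i _ => ha i) (Nat.cast_nonneg d)).trans (h d hdS)

theorem multi_le {ι : Type} [Fintype ι] [DecidableEq ι] {z X : ℕ} {C : ℝ}
    (T : Finset (ι → ℕ)) (al : ι → ℕ → ℝ) (hal : ∀ i r, 0 ≤ al i r) (hal0 : ∀ i, al i 0 ≤ 1)
    (hT : ∀ r ∈ T, ∀ i, r i = 0 ∨ r i ∈ SS z X)
    (h : ∀ i, ∀ d ∈ SS z X, (d : ℝ) * ∑ r ∈ (SS z X).filter (fun r => d ∣ r), al i r ≤ C)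
    (d : ι → ℕ) (hd : ∀ i, d i ∈ insert 0 (SS z X)) :
    (∏ i, |kap (d i)|) * ∑ r ∈ T.filter (fun r => d ∈ Fintype.piFinset (fun i => DL (r i))),
      ∏ i, al i (r i) ≤ ∏ i, cC C (d i) := by
  have h1 : ∑ r ∈ T.filter (fun r => d ∈ Fintype.piFinset (fun i => DL (r i))),
      ∏ i, al i (r i) ≤
      ∏ i, ∑ r ∈ (insert 0 (SS z X)).filter (fun r => d i ∈ DL r), al i r := by
    rw [prod_univ_sum]
    refine sum_le_sum_of_subset_of_nonneg ?_ (fun _ _ _ => prod_nonneg fun i _ => hal i _)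
    intro r hr
    rw [mem_filter] at hr
    rw [Fintype.mem_piFinset]
    intro i
    rw [mem_filter, mem_insert]
    exact ⟨hT r hr.1 i, (Fintype.mem_piFinset.1 hr.2) i⟩
  calc _ ≤ (∏ i, |kap (d i)|) *
        ∏ i, ∑ r ∈ (insert 0 (SS z X)).filter (fun r => d i ∈ DL r), al i r :=
        mul_le_mul_of_nonneg_left h1 (prod_nonneg fun i _ => abs_nonneg _)
    _ = ∏ i, (|kap (d i)| *
        ∑ r ∈ (insert 0 (SS z X)).filter (fun r => d i ∈ DL r), al i r) := by
        rw [prod_mul_distrib]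
    _ ≤ _ := prod_le_prod (fun i _ => mul_nonneg (abs_nonneg _) (sum_nonneg fun r _ => hal i r))
        (fun i _ => single_le (al i) (hal i) (hal0 i) (h i) (d i) (hd i))

/-- the pairs with a given `LL` -/
theorem fiber_one {z X : ℕ} {C : ℝ} (hC : 1 ≤ C) (l : ℕ) :
    ∑ q ∈ ((insert 0 (SS z X)) ×ˢ (insert 0 (SS z X))).filter (fun q => LL q.1 q.2 = l),
      cC C q.1 * cC C q.2 ≤
    if l = 0 then 1 else 3 * C ^ 2 * 3 ^ l.primeFactors.card := by
  by_cases h0 : l = 0
  · rw [if_pos h0]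
    have h1 : ((insert 0 (SS z X)) ×ˢ (insert 0 (SS z X))).filter (fun q => LL q.1 q.2 = l) ⊆
        {((0 : ℕ), (0 : ℕ))} := by
      rintro ⟨a, b⟩ hq
      rw [mem_filter] at hq
      have h2 := hq.2
      simp only at h2
      rw [h0, LL_eq_zero] at h2
      rw [mem_singleton, h2.1, h2.2]
    refine (sum_le_sum_of_subset_of_nonneg h1 (fun q _ _ =>
      mul_nonneg (cC_nonneg hC _) (cC_nonneg hC _))).trans ?_
    simp [cC]
  · rw [if_neg h0]
    by_cases hne : (((insert 0 (SS z X)) ×ˢ (insert 0 (SS z X))).filter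
        (fun q => LL q.1 q.2 = l)).Nonempty
    · obtain ⟨⟨a, b⟩, hq⟩ := hne
      rw [mem_filter, mem_product] at hq
      obtain ⟨⟨ha, hb⟩, hl⟩ := hq
      simp only at ha hb hl
      have hab : a ≠ 0 ∨ b ≠ 0 := by
        by_contra hcon
        push Not at hcon
        apply h0
        rw [← hl, LL_eq_zero]
        exact hcon
      have hlS : l ∈ SS z (X ^ 2) := hl ▸ LL_mem ha hb hab
      have hsub : ((insert 0 (SS z X)) ×ˢ (insert 0 (SS z X))).filter
          (fun q => LL q.1 q.2 = l) ⊆ (Qn z X).filter (fun q => LL q.1 q.2 = l) := by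
        rintro ⟨a, b⟩ hq
        rw [mem_filter] at hq ⊢
        refine ⟨?_, hq.2⟩
        rw [Qn, mem_filter]
        refine ⟨hq.1, ?_⟩
        by_contra hcon
        push Not at hcon
        apply h0
        rw [← hq.2, LL_eq_zero]
        exact hcon
      have h2 : ∑ q ∈ ((insert 0 (SS z X)) ×ˢ (insert 0 (SS z X))).filter
          (fun q => LL q.1 q.2 = l), cC C q.1 * cC C q.2 ≤
          ∑ q ∈ (Qn z X).filter (fun q => LL q.1 q.2 = l), C ^ 2 := by
        refine (sum_le_sum_of_subset_of_nonneg hsub (fun q _ _ =>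
          mul_nonneg (cC_nonneg hC _) (cC_nonneg hC _))).trans ?_
        refine sum_le_sum fun q _ => ?_
        rw [sq]
        exact mul_le_mul (cC_le hC _) (cC_le hC _) (cC_nonneg hC _) (by linarith)
      refine h2.trans ?_
      rw [sum_const, nsmul_eq_mul]
      have h3 := fiber_card (z := z) (X := X) hlS
      calc _ ≤ (3 * (3 : ℝ) ^ l.primeFactors.card) * C ^ 2 :=
            mul_le_mul_of_nonneg_right h3 (sq_nonneg _)
        _ = _ := by ring
    · rw [not_nonempty_iff_eq_empty] at hne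
      rw [hne, sum_empty]
      positivity

theorem fiber_multi {ι : Type} [Fintype ι] [DecidableEq ι] {z X : ℕ} {C : ℝ} (hC : 1 ≤ C)
    (L : ι → ℕ) :
    ∑ q ∈ ((Fintype.piFinset (fun _ : ι => insert 0 (SS z X))) ×ˢ
        (Fintype.piFinset (fun _ : ι => insert 0 (SS z X)))).filter
          (fun q => (fun i => LL (q.1 i) (q.2 i)) = L),
      (∏ i, cC C (q.1 i)) * ∏ i, cC C (q.2 i) ≤
    ∏ i, (if L i = 0 then 1 else 3 * C ^ 2 * 3 ^ (L i).primeFactors.card) := by
  have hinj : Set.InjOn (fun (q : (ι → ℕ) × (ι → ℕ)) (i : ι) => (q.1 i, q.2 i))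
      (((Fintype.piFinset (fun _ : ι => insert 0 (SS z X))) ×ˢ
        (Fintype.piFinset (fun _ : ι => insert 0 (SS z X)))).filter
          (fun q => (fun i => LL (q.1 i) (q.2 i)) = L) : Finset ((ι → ℕ) × (ι → ℕ))) := by
    rintro ⟨a, b⟩ _ ⟨c, d⟩ _ h
    simp only at h
    have h1 : a = c := by funext i; exact congrArg Prod.fst (congrFun h i)
    have h2 : b = d := by funext i; exact congrArg Prod.snd (congrFun h i)
    rw [h1, h2]
  have h1 : ∑ q ∈ ((Fintype.piFinset (fun _ : ι => insert 0 (SS z X))) ×ˢ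
        (Fintype.piFinset (fun _ : ι => insert 0 (SS z X)))).filter
          (fun q => (fun i => LL (q.1 i) (q.2 i)) = L),
      (∏ i, cC C (q.1 i)) * ∏ i, cC C (q.2 i) ≤
      ∏ i, ∑ q ∈ ((insert 0 (SS z X)) ×ˢ (insert 0 (SS z X))).filter
        (fun q => LL q.1 q.2 = L i), cC C q.1 * cC C q.2 := by
    rw [prod_univ_sum]
    have h2 := sum_image (f := fun (x : ι → ℕ × ℕ) => ∏ i, (cC C (x i).1 * cC C (x i).2)) hinj
    have h3 : ∑ q ∈ ((Fintype.piFinset (fun _ : ι => insert 0 (SS z X))) ×ˢ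
        (Fintype.piFinset (fun _ : ι => insert 0 (SS z X)))).filter
          (fun q => (fun i => LL (q.1 i) (q.2 i)) = L),
      (∏ i, cC C (q.1 i)) * ∏ i, cC C (q.2 i) =
      ∑ q ∈ ((Fintype.piFinset (fun _ : ι => insert 0 (SS z X))) ×ˢ
        (Fintype.piFinset (fun _ : ι => insert 0 (SS z X)))).filter
          (fun q => (fun i => LL (q.1 i) (q.2 i)) = L),
        ∏ i, (cC C (q.1 i) * cC C (q.2 i)) :=
      sum_congr rfl fun q _ => prod_mul_distrib.symm
    rw [h3, ← h2]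
    refine sum_le_sum_of_subset_of_nonneg ?_ (fun _ _ _ => prod_nonneg fun i _ =>
      mul_nonneg (cC_nonneg hC _) (cC_nonneg hC _))
    intro x hx
    rw [mem_image] at hx
    obtain ⟨⟨r, s⟩, hq, rfl⟩ := hx
    rw [mem_filter, mem_product, Fintype.mem_piFinset, Fintype.mem_piFinset] at hq
    rw [Fintype.mem_piFinset]
    intro i
    rw [mem_filter, mem_product]
    exact ⟨⟨hq.1.1 i, hq.1.2 i⟩, congrFun hq.2 i⟩
  refine h1.trans (prod_le_prod (fun i _ => sum_nonneg fun q _ =>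
    mul_nonneg (cC_nonneg hC _) (cC_nonneg hC _)) (fun i _ => fiber_one hC (L i)))

/-- interchange of the sums -/
theorem swap {α : Type} [DecidableEq α] (T U : Finset α) (P : α → Finset α) (hP : ∀ r ∈ T, P r ⊆ U)
    (A B : α → ℝ) (F : α → α → ℝ) :
    ∑ r ∈ T, ∑ s ∈ T, A r * A s * ∑ d ∈ P r, ∑ e ∈ P s, B d * B e * F d e =
    ∑ d ∈ U, ∑ e ∈ U, (B d * ∑ r ∈ T.filter (fun r => d ∈ P r), A r) *
      (B e * ∑ s ∈ T.filter (fun s => e ∈ P s), A s) * F d e := by
  have key : ∀ f : α → α → ℝ, ∑ r ∈ T, ∑ d ∈ P r, f r d =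
      ∑ d ∈ U, ∑ r ∈ T.filter (fun r => d ∈ P r), f r d := by
    intro f
    refine sum_comm' ?_
    intro r d
    rw [mem_filter]
    constructor
    · rintro ⟨h1, h2⟩
      exact ⟨⟨h1, h2⟩, hP r h1 h2⟩
    · rintro ⟨⟨h1, h2⟩, _⟩
      exact ⟨h1, h2⟩
  calc ∑ r ∈ T, ∑ s ∈ T, A r * A s * ∑ d ∈ P r, ∑ e ∈ P s, B d * B e * F d e
      = ∑ r ∈ T, ∑ d ∈ P r, ∑ s ∈ T, ∑ e ∈ P s, A r * A s * (B d * B e * F d e) := by
        refine sum_congr rfl fun r _ => ?_
        rw [sum_comm]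
        refine sum_congr rfl fun s _ => ?_
        simp only [mul_sum]
    _ = ∑ d ∈ U, ∑ r ∈ T.filter (fun r => d ∈ P r), ∑ e ∈ U,
          ∑ s ∈ T.filter (fun s => e ∈ P s), A r * A s * (B d * B e * F d e) := by
        rw [key]
        refine sum_congr rfl fun d _ => sum_congr rfl fun r _ => ?_
        rw [key]
    _ = _ := by
        refine sum_congr rfl fun d _ => ?_
        rw [sum_comm]
        refine sum_congr rfl fun e _ => ?_
        simp only [mul_sum, sum_mul]
        refine sum_comm.trans (sum_congr rfl fun _ _ => sum_congr rfl fun _ _ => by ring)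

theorem wt : StmtWT := by
  intro ι _ _ pt y z X D K N w C G T c al hC hT h1 hD hK hal hal0 hc hsum
  set W : (ι → ℕ) → ℝ := fun L => ∑ n ∈ N, w n * ∏ i, ind y z (L i) (n + pt i) with hW
  set M : (ι → ℕ) → ℝ := fun L => G (fun i => sg (L i)) * ∏ i, dd 1 (L i) with hM
  set PL : (ι → ℕ) → Finset (ι → ℕ) := fun r => Fintype.piFinset (fun i => DL (r i)) with hPL
  have hsqf : ∀ r ∈ T, ∀ i, r i = 0 ∨ Squarefree (r i) := by
    intro r hr i
    rcases hT r hr i with h' | h'
    · exact Or.inl h'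
    · exact Or.inr (Finset.mem_filter.1 h').2.1
  have hexp : ∀ r ∈ T, ∀ n, ∏ i, vv y z (r i) (n + pt i) =
      ∑ d ∈ PL r, ∏ i, (kap (d i) * ind y z (d i) (n + pt i)) := by
    intro r hr n
    rw [hPL]
    simp only
    rw [← Finset.prod_univ_sum (fun i => DL (r i)) (fun i a => kap a * ind y z a (n + pt i))]
    exact Finset.prod_congr rfl fun i _ => vv_eq (hsqf r hr i)
  have hsq : ∑ n ∈ N, w n * (∑ r ∈ T, c r * ∏ i, vv y z (r i) (n + pt i)) ^ 2 =
      ∑ r ∈ T, ∑ s ∈ T, c r * c s * ∑ d ∈ PL r, ∑ e ∈ PL s,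
        (∏ i, (kap (d i) * kap (e i))) * W (fun i => LL (d i) (e i)) := by
    have e1 : ∀ n ∈ N, w n * (∑ r ∈ T, c r * ∏ i, vv y z (r i) (n + pt i)) ^ 2 =
        ∑ r ∈ T, ∑ s ∈ T, c r * c s * ∑ d ∈ PL r, ∑ e ∈ PL s,
          (∏ i, (kap (d i) * kap (e i))) *
            (w n * ∏ i, ind y z (LL (d i) (e i)) (n + pt i)) := by
      intro n _
      rw [sq, Finset.sum_mul_sum, Finset.mul_sum]
      refine Finset.sum_congr rfl fun r hr => ?_
      rw [Finset.mul_sum]
      refine Finset.sum_congr rfl fun s hs => ?_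
      rw [hexp r hr n, hexp s hs n]
      rw [show ∀ a b u v : ℝ, w n * (a * u * (b * v)) = a * b * (w n * (u * v)) from
        fun a b u v => by ring, Finset.sum_mul_sum, Finset.mul_sum]
      congr 1
      refine Finset.sum_congr rfl fun d _ => ?_
      rw [Finset.mul_sum]
      refine Finset.sum_congr rfl fun e _ => ?_
      have e2 : (∏ i, kap (d i) * ind y z (d i) (n + pt i)) *
          (∏ i, kap (e i) * ind y z (e i) (n + pt i)) =
          (∏ i, (kap (d i) * kap (e i))) * ∏ i, ind y z (LL (d i) (e i)) (n + pt i) := by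
        rw [← Finset.prod_mul_distrib, ← Finset.prod_mul_distrib]
        refine Finset.prod_congr rfl fun i _ => ?_
        rw [← ind_mul]
        ring
      rw [e2]
      ring
    rw [Finset.sum_congr rfl e1, Finset.sum_comm]
    refine Finset.sum_congr rfl fun r _ => ?_
    rw [Finset.sum_comm]
    refine Finset.sum_congr rfl fun s _ => ?_
    rw [← Finset.mul_sum, Finset.sum_comm]
    congr 1
    refine Finset.sum_congr rfl fun d _ => ?_
    rw [Finset.sum_comm]
    refine Finset.sum_congr rfl fun e _ => ?_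
    rw [← Finset.mul_sum]
  have hsg : ∀ r ∈ T, ∀ s ∈ T, ∀ d ∈ PL r, ∀ e ∈ PL s,
      (fun i => sg (LL (d i) (e i))) = (fun i => sg (r i + s i)) := by
    intro r hr s hs d hd e he
    funext i
    have b1 := (DL_spec (hT r hr i) ((Fintype.mem_piFinset.1 hd) i)).1
    have b2 := (DL_spec (hT s hs i) ((Fintype.mem_piFinset.1 he) i)).1
    have b3 : LL (d i) (e i) = 0 ↔ r i + s i = 0 := by
      rw [LL_eq_zero, b1, b2, Nat.add_eq_zero_iff]
    unfold sg
    by_cases h2 : r i + s i = 0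
    · rw [if_pos h2, if_pos (b3.2 h2)]
    · rw [if_neg h2, if_neg (fun h => h2 (b3.1 h))]
  have hmain : ∑ r ∈ T, c r ^ 2 * (G (fun i => sg (r i)) * ∏ i, ww 1 (r i)) =
      ∑ r ∈ T, ∑ s ∈ T, c r * c s * ∑ d ∈ PL r, ∑ e ∈ PL s,
        (∏ i, (kap (d i) * kap (e i))) * M (fun i => LL (d i) (e i)) := by
    have e1 : ∀ r ∈ T, ∀ s ∈ T, ∑ d ∈ PL r, ∑ e ∈ PL s,
        (∏ i, (kap (d i) * kap (e i))) * M (fun i => LL (d i) (e i)) =
        G (fun i => sg (r i + s i)) * if r = s then ∏ i, ww 1 (r i) else 0 := by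
      intro r hr s hs
      have e2 : ∑ d ∈ PL r, ∑ e ∈ PL s,
          (∏ i, (kap (d i) * kap (e i))) * M (fun i => LL (d i) (e i)) =
          G (fun i => sg (r i + s i)) *
            ∑ d ∈ PL r, ∑ e ∈ PL s, ∏ i, (kap (d i) * kap (e i) * dd 1 (LL (d i) (e i))) := by
        rw [Finset.mul_sum]
        refine Finset.sum_congr rfl fun d hd => ?_
        rw [Finset.mul_sum]
        refine Finset.sum_congr rfl fun e he => ?_
        rw [hM]
        simp only
        rw [hsg r hr s hs d hd e he, Finset.prod_mul_distrib (f := fun i => kap (d i) * kap (e i))]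
        ring
      rw [e2, hPL]
      simp only
      rw [sum_pi_pi (fun i => DL (r i)) (fun i => DL (s i))
        (fun _ a b => kap a * kap b * dd 1 (LL a b))]
      congr 1
      have e3 : ∀ i, ∑ a ∈ DL (r i), ∑ b ∈ DL (s i), kap a * kap b * dd 1 (LL a b) =
          if r i = s i then ww 1 (r i) else 0 := by
        intro i
        refine J_eq 1 (hsqf r hr i) (hsqf s hs i) ?_ ?_
        · rintro ⟨h2, h3⟩
          exact h1 r hr s hs i h2 h3
        · rintro ⟨h2, h3⟩
          exact h1 s hs r hr i h3 h2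
      rw [Finset.prod_congr rfl fun i _ => e3 i]
      by_cases hrs : r = s
      · subst hrs
        simp
      · rw [if_neg hrs]
        obtain ⟨i, hi⟩ := Function.ne_iff.1 hrs
        exact Finset.prod_eq_zero (Finset.mem_univ i) (if_neg hi)
    refine Finset.sum_congr rfl fun r hr => ?_
    rw [Finset.sum_eq_single r]
    · rw [e1 r hr r hr, if_pos rfl]
      have e4 : (fun i => sg (r i + r i)) = (fun i => sg (r i)) := by
        funext i
        unfold sg
        by_cases h2 : r i = 0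
        · rw [if_pos h2, if_pos (by omega)]
        · rw [if_neg h2, if_neg (by omega)]
      rw [e4]
      ring
    · intro s hs hsr
      rw [e1 r hr s hs, if_neg hsr.symm, mul_zero, mul_zero]
    · intro hr'
      exact absurd hr hr'
  -- the labels of the products
  have hDS : ∀ r ∈ T, ∀ s ∈ T, ∀ d ∈ PL r, ∀ e ∈ PL s,
      (fun i => LL (d i) (e i)) ∈ (DS z D K : Finset (ι → ℕ)) := by
    intro r hr s hs d hd e he
    have hd' : ∀ i, d i ∈ DL (r i) := fun i => (Fintype.mem_piFinset.1 hd) i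
    have he' : ∀ i, e i ∈ DL (s i) := fun i => (Fintype.mem_piFinset.1 he) i
    have k1 : ∀ i, LL (d i) (e i) = 0 ∨ Sf z (LL (d i) (e i)) := fun i =>
      LL_Sf (DL_spec (hT r hr i) (hd' i)).2.1 (DL_spec (hT s hs i) (he' i)).2.1
    have k2 : ∏ i, max 1 (LL (d i) (e i)) ≤ D := by
      have a1 : ∏ i, max 1 (LL (d i) (e i)) ≤ (∏ i, max 1 (r i)) * ∏ i, max 1 (s i) := by
        rw [← Finset.prod_mul_distrib]
        refine Finset.prod_le_prod' fun i _ => ?_
        refine (LL_le _ _).trans (Nat.mul_le_mul ?_ ?_)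
        · exact max_le_max le_rfl (DL_spec (hT r hr i) (hd' i)).2.2
        · exact max_le_max le_rfl (DL_spec (hT s hs i) (he' i)).2.2
      have a2 := hD r hr
      have a3 := hD s hs
      rcases le_total (∏ i, max 1 (r i)) (∏ i, max 1 (s i)) with h4 | h4
      · refine a1.trans ((Nat.mul_le_mul h4 le_rfl).trans ?_)
        rw [← sq]; exact a3
      · refine a1.trans ((Nat.mul_le_mul le_rfl h4).trans ?_)
        rw [← sq]; exact a2
    have k3 : nz (fun i => LL (d i) (e i)) ≤ K := by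
      have a1 : (univ.filter (fun i => LL (d i) (e i) ≠ 0)) =
          (univ.filter (fun i => r i ≠ 0 ∨ s i ≠ 0)) := by
        refine Finset.filter_congr fun i _ => ?_
        have b1 := (DL_spec (hT r hr i) (hd' i)).1
        have b2 := (DL_spec (hT s hs i) (he' i)).1
        rw [Ne, LL_eq_zero, b1, b2, not_and_or]
      unfold nz
      rw [a1]
      exact hK r hr s hs
    unfold DS
    rw [mem_filter, Fintype.mem_piFinset]
    refine ⟨fun i => ?_, k2, k3⟩
    rw [mem_insert]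
    rcases k1 i with h2 | h2
    · exact Or.inl h2
    · right
      rw [mem_SS]
      have h3 : max 1 (LL (d i) (e i)) ≤ ∏ j, max 1 (LL (d j) (e j)) :=
        Finset.single_le_prod' (f := fun j => max 1 (LL (d j) (e j)))
          (fun j _ => le_max_left _ _) (Finset.mem_univ i)
      have h4 := h3.trans k2
      have h5 : LL (d i) (e i) ≠ 0 := h2.1.ne_zero
      have h6 := le_max_right 1 (LL (d i) (e i))
      exact ⟨Nat.one_le_iff_ne_zero.2 h5, by omega, h2⟩
  set E : (ι → ℕ) → ℝ := fun L => |W L - M L| with hE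
  set E' : (ι → ℕ) → ℝ := fun L => if L ∈ (DS z D K : Finset (ι → ℕ)) then E L else 0 with hE'
  have hE'n : ∀ L, 0 ≤ E' L := by
    intro L
    rw [hE']
    simp only
    split_ifs
    · exact abs_nonneg _
    · exact le_rfl
  have hgoal : ∑ r ∈ T, c r ^ 2 * (G (fun i => sg (r i)) *
        ∏ i, (if r i = 0 then 1 else (Nat.totient (r i) : ℝ))) =
      ∑ r ∈ T, c r ^ 2 * (G (fun i => sg (r i)) * ∏ i, ww 1 (r i)) := by
    refine Finset.sum_congr rfl fun r _ => ?_
    congr 2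
    refine Finset.prod_congr rfl fun i _ => ?_
    unfold ww
    rw [one_mul]
  rw [hgoal, hsq, hmain, ← Finset.sum_sub_distrib]
  have hfin : ∀ r ∈ T, ∀ s ∈ T,
      |c r * c s * ∑ d ∈ PL r, ∑ e ∈ PL s,
        (∏ i, (kap (d i) * kap (e i))) * W (fun i => LL (d i) (e i)) -
       c r * c s * ∑ d ∈ PL r, ∑ e ∈ PL s,
        (∏ i, (kap (d i) * kap (e i))) * M (fun i => LL (d i) (e i))| ≤
      (∏ i, al i (r i)) * (∏ i, al i (s i)) * ∑ d ∈ PL r, ∑ e ∈ PL s,
        (∏ i, |kap (d i)|) * (∏ i, |kap (e i)|) * E' (fun i => LL (d i) (e i)) := by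
    intro r hr s hs
    rw [← mul_sub, ← Finset.sum_sub_distrib, abs_mul]
    have a1 : |c r * c s| ≤ (∏ i, al i (r i)) * (∏ i, al i (s i)) := by
      rw [abs_mul]
      exact mul_le_mul (hc r hr) (hc s hs) (abs_nonneg _)
        (Finset.prod_nonneg fun i _ => hal i _)
    have a2 : |∑ d ∈ PL r, (∑ e ∈ PL s,
        (∏ i, (kap (d i) * kap (e i))) * W (fun i => LL (d i) (e i)) -
          ∑ e ∈ PL s, (∏ i, (kap (d i) * kap (e i))) * M (fun i => LL (d i) (e i)))| ≤
        ∑ d ∈ PL r, ∑ e ∈ PL s,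
        (∏ i, |kap (d i)|) * (∏ i, |kap (e i)|) * E' (fun i => LL (d i) (e i)) := by
      refine (Finset.abs_sum_le_sum_abs _ _).trans ?_
      refine Finset.sum_le_sum fun d hd => ?_
      rw [← Finset.sum_sub_distrib]
      refine (Finset.abs_sum_le_sum_abs _ _).trans ?_
      refine Finset.sum_le_sum fun e he => ?_
      rw [← mul_sub, abs_mul, Finset.abs_prod]
      have b0 : E' (fun i => LL (d i) (e i)) =
          |W (fun i => LL (d i) (e i)) - M (fun i => LL (d i) (e i))| := by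
        rw [hE']
        simp only
        rw [if_pos (hDS r hr s hs d hd e he)]
      have b1 : ∏ i, |kap (d i) * kap (e i)| = (∏ i, |kap (d i)|) * ∏ i, |kap (e i)| := by
        rw [← Finset.prod_mul_distrib]
        exact Finset.prod_congr rfl fun i _ => abs_mul _ _
      rw [b0, b1]
    exact mul_le_mul a1 a2 (abs_nonneg _)
      (mul_nonneg (Finset.prod_nonneg fun i _ => hal i _) (Finset.prod_nonneg fun i _ => hal i _))
  have hstep1 : |∑ r ∈ T, (∑ s ∈ T, c r * c s * ∑ d ∈ PL r, ∑ e ∈ PL s,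
        (∏ i, (kap (d i) * kap (e i))) * W (fun i => LL (d i) (e i)) -
        ∑ s ∈ T, c r * c s * ∑ d ∈ PL r, ∑ e ∈ PL s,
        (∏ i, (kap (d i) * kap (e i))) * M (fun i => LL (d i) (e i)))| ≤
      ∑ r ∈ T, ∑ s ∈ T, (∏ i, al i (r i)) * (∏ i, al i (s i)) * ∑ d ∈ PL r, ∑ e ∈ PL s,
        (∏ i, |kap (d i)|) * (∏ i, |kap (e i)|) * E' (fun i => LL (d i) (e i)) := by
    refine (Finset.abs_sum_le_sum_abs _ _).trans (Finset.sum_le_sum fun r hr => ?_)
    rw [← Finset.sum_sub_distrib]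
    exact (Finset.abs_sum_le_sum_abs _ _).trans
      (Finset.sum_le_sum fun s hs => hfin r hr s hs)
  refine hstep1.trans ?_
  set U : Finset (ι → ℕ) := Fintype.piFinset (fun _ : ι => insert 0 (SS z X)) with hU
  have hPU : ∀ r ∈ T, PL r ⊆ U := by
    intro r hr d hd
    rw [hU, Fintype.mem_piFinset]
    intro i
    exact (DL_mem (mem_insert.2 (hT r hr i)) ((Fintype.mem_piFinset.1 hd) i)).1
  rw [swap T U PL hPU (fun r => ∏ i, al i (r i)) (fun d => ∏ i, |kap (d i)|)
    (fun d e => E' (fun i => LL (d i) (e i)))]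
  have hml : ∀ d ∈ U, (∏ i, |kap (d i)|) * ∑ r ∈ T.filter (fun r => d ∈ PL r),
      ∏ i, al i (r i) ≤ ∏ i, cC C (d i) := fun d hd =>
    multi_le T al hal hal0 hT hsum d (fun i => (Fintype.mem_piFinset.1 hd) i)
  have hnn : ∀ d : ι → ℕ, 0 ≤ (∏ i, |kap (d i)|) * ∑ r ∈ T.filter (fun r => d ∈ PL r),
      ∏ i, al i (r i) := fun d =>
    mul_nonneg (Finset.prod_nonneg fun i _ => abs_nonneg _)
      (Finset.sum_nonneg fun r _ => Finset.prod_nonneg fun i _ => hal i _)
  have hcn : ∀ d : ι → ℕ, 0 ≤ ∏ i, cC C (d i) := fun d =>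
    Finset.prod_nonneg fun i _ => cC_nonneg hC _
  have hstep2 : ∑ d ∈ U, ∑ e ∈ U, ((∏ i, |kap (d i)|) * ∑ r ∈ T.filter (fun r => d ∈ PL r),
        ∏ i, al i (r i)) * ((∏ i, |kap (e i)|) * ∑ s ∈ T.filter (fun s => e ∈ PL s),
        ∏ i, al i (s i)) * E' (fun i => LL (d i) (e i)) ≤
      ∑ d ∈ U, ∑ e ∈ U, (∏ i, cC C (d i)) * (∏ i, cC C (e i)) *
        E' (fun i => LL (d i) (e i)) := by
    refine Finset.sum_le_sum fun d hd => Finset.sum_le_sum fun e he => ?_
    refine mul_le_mul_of_nonneg_right ?_ (hE'n _)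
    exact mul_le_mul (hml d hd) (hml e he) (hnn e) (hcn d)
  refine hstep2.trans ?_
  rw [← Finset.sum_product' U U (fun (d e : ι → ℕ) => (∏ i, cC C (d i)) * (∏ i, cC C (e i)) *
        E' (fun i => LL (d i) (e i)))]
  have hstep3 : ∑ q ∈ U ×ˢ U, (∏ i, cC C (q.1 i)) * (∏ i, cC C (q.2 i)) *
        E' (fun i => LL (q.1 i) (q.2 i)) =
      ∑ L ∈ (DS z D K : Finset (ι → ℕ)), ∑ q ∈ (U ×ˢ U).filter
        (fun q => (fun i => LL (q.1 i) (q.2 i)) = L),
        (∏ i, cC C (q.1 i)) * (∏ i, cC C (q.2 i)) * E L := by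
    have g1 : ∑ q ∈ U ×ˢ U, (∏ i, cC C (q.1 i)) * (∏ i, cC C (q.2 i)) *
        E' (fun i => LL (q.1 i) (q.2 i)) =
      ∑ q ∈ (U ×ˢ U).filter (fun q => (fun i => LL (q.1 i) (q.2 i)) ∈
        (DS z D K : Finset (ι → ℕ))), (∏ i, cC C (q.1 i)) * (∏ i, cC C (q.2 i)) *
        E (fun i => LL (q.1 i) (q.2 i)) := by
      rw [Finset.sum_filter]
      refine Finset.sum_congr rfl fun q _ => ?_
      rw [hE']
      simp only
      split_ifs
      · rfl
      · rw [mul_zero]
    rw [g1, ← Finset.sum_fiberwise_of_maps_to (g := fun q : (ι → ℕ) × (ι → ℕ) =>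
      (fun i => LL (q.1 i) (q.2 i))) (t := (DS z D K : Finset (ι → ℕ)))
      (fun q hq => (Finset.mem_filter.1 hq).2)]
    refine Finset.sum_congr rfl fun L hL => ?_
    rw [Finset.filter_filter]
    refine Finset.sum_congr ?_ fun q hq => ?_
    · refine Finset.filter_congr fun q _ => ?_
      constructor
      · rintro ⟨_, h3⟩
        exact h3
      · intro h3
        exact ⟨h3 ▸ hL, h3⟩
    · rw [(Finset.mem_filter.1 hq).2]
  rw [hstep3]
  refine Finset.sum_le_sum fun L _ => ?_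
  rw [← Finset.sum_mul]
  exact mul_le_mul_of_nonneg_right (fiber_multi hC L) (abs_nonneg _)

end Pool.Agent.Helper67.CG
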